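import Pool.Agent.Helper93.Fin.Work

/-!
# MP_f09395 (helper93): the adjoint action `Adj` (part of module B)
-/

noncomputable section

namespace Pool.Agent.Helper93.Fin

variable {𝔸 : Type*} [NormedRing 𝔸]

/-- `Ad(k) X` -/
abbrev Adj (k : 𝔸ˣ) (X : 𝔸) : 𝔸 := (k : 𝔸) * X * ((k⁻¹ : 𝔸ˣ) : 𝔸)

end Pool.Agent.Helper93.Fin
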