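import Pool.Agent.Helper93.Fin.Q
import Pool.Agent.helper18.FinAdj
import Pool.Agent.helper80.FinS

/-!
# MP_f09395 (helper93): Module B, bridge between groups and Lie algebra data
-/

noncomputable section

namespace Pool.Agent.Helper93.Fin

open scoped ContDiff
open ThetaAux

variable {𝔸 : Type*} [NormedRing 𝔸] [NormedAlgebra ℝ 𝔸]
variable {g h m : Submodule ℝ 𝔸} {P : 𝔸 →L[ℝ] m} {L : m → ℝ}
variable {G H : Subgroup 𝔸ˣ} {F : 𝔸 → ℝ}

theorem isReductive_of (hHG : H ≤ G) (hg : ∀ X, X ∈ g ↔ X ∈ lieAlg G)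
    (hh : ∀ X, X ∈ h ↔ X ∈ lieAlg H) (hR : RedData g h m P)
    (hAd : ∀ k ∈ H, ∀ Z ∈ m, Adj k Z ∈ m) : IsReductive G H m where
  le := hHG
  sum := by
    intro X
    rw [← hg]
    constructor
    · intro hX
      exact ⟨X - P X, (hh _).1 (hR.res X hX), P X, (P X).2, by abel⟩
    · rintro ⟨Y, hY, Z, hZ, rfl⟩
      exact g.add_mem (hR.h_le ((hh _).2 hY)) (hR.m_le hZ)
  disj := by
    intro Z hZ hZ'
    have h1 := hR.P_m ⟨Z, hZ⟩
    have h2 := hR.P_h Z ((hh _).2 hZ')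
    simp only at h1
    rw [h2] at h1
    exact (congrArg Subtype.val h1).symm
  inv := hAd

/-- an invariant Finsler metric is determined by the restriction to `𝔪` -/
theorem F_P (hg : ∀ X, X ∈ g ↔ X ∈ lieAlg G) (hh : ∀ X, X ∈ h ↔ X ∈ lieAlg H)
    (hR : RedData g h m P) (hF : InvFinsler G H m F) {X : 𝔸} (hX : X ∈ g) : F (P X) = F X := by
  have h1 := hF.horiz (P X : 𝔸) ((hg _).1 (hR.m_le (P X).2)) (X - P X) ((hh _).1 (hR.res X hX))
  rw [add_sub_cancel] at h1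
  exact h1.symm

theorem Lag_smul (hg : ∀ X, X ∈ g ↔ X ∈ lieAlg G) (hR : RedData g h m P)
    (hF : InvFinsler G H m F) (c : ℝ) (u : m) : Lag m F (c • u) = c ^ 2 * Lag m F u := by
  unfold Lag
  rw [Submodule.coe_smul, hF.homog c _ ((hg _).1 (hR.m_le u.2)), mul_pow, sq_abs]
  ring

theorem Lag_Ad (hg : ∀ X, X ∈ g ↔ X ∈ lieAlg G) (hR : RedData g h m P)
    (hF : InvFinsler G H m F) {k : 𝔸ˣ} (hk : k ∈ H) (u v : m) (huv : (v : 𝔸) = Adj k u) :
    Lag m F v = Lag m F u := by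
  unfold Lag
  rw [huv, Adj, hF.inv k hk _ ((hg _).1 (hR.m_le u.2))]

theorem Lag_pos (hF : InvFinsler G H m F) {u : m} (hu : u ≠ 0) : 0 < Lag m F u := by
  unfold Lag
  have h1 := hF.pos (u : 𝔸) u.2 (fun h0 => hu (Subtype.ext h0))
  positivity

variable [FiniteDimensional ℝ 𝔸]

theorem lieAlg_unit {Y : 𝔸} (hY : Y ∈ lieAlg H) (t : ℝ) : ∃ k ∈ H,
    ∀ X : 𝔸, Adj k X = NormedSpace.exp (t • Y) * X * NormedSpace.exp (-(t • Y)) := by
  obtain ⟨k, hk, hk'⟩ := hY t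
  refine ⟨k, hk, fun X => ?_⟩
  have h1 : ((k⁻¹ : 𝔸ˣ) : 𝔸) = NormedSpace.exp (-(t • Y)) := by
    refine Units.inv_eq_of_mul_eq_one_right ?_
    rw [hk', exp_mul_neg]
  rw [Adj, h1, hk']

theorem minkData_of (hg : ∀ X, X ∈ g ↔ X ∈ lieAlg G) (hh : ∀ X, X ∈ h ↔ X ∈ lieAlg H)
    (hR : RedData g h m P) (hF : InvFinsler G H m F) : MinkData h m P (Lag m F) := by
  have hsm : ContDiffOn ℝ ∞ (Lag m F) {0}ᶜ := (hF.smooth.pow 2).div_const 2
  refine ⟨hsm, fun u hu w hw => hF.convex u hu w hw, ?_⟩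
  intro Y hY u hu
  have : CompleteSpace 𝔸 := FiniteDimensional.complete ℝ 𝔸
  have hug : (u : 𝔸) ∈ g := hR.m_le u.2
  -- the curve
  have hc : HasDerivAt (fun s : ℝ => P (NormedSpace.exp (s • Y) * (u : 𝔸)
      * NormedSpace.exp (s • (-Y)))) (P ⁅Y, (u : 𝔸)⁆) 0 := by
    have e1 := hasDerivAt_exp_smul_const (𝕂 := ℝ) Y (0 : ℝ)
    have e3 := hasDerivAt_exp_smul_const (𝕂 := ℝ) (-Y) (0 : ℝ)
    have e4 := (e1.mul_const (u : 𝔸)).mul e3
    have e5 := (P.hasFDerivAt (x := NormedSpace.exp ((0 : ℝ) • Y) * (u : 𝔸)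
      * NormedSpace.exp ((0 : ℝ) • (-Y)))).comp_hasDerivAt (0 : ℝ) e4
    refine e5.congr_deriv ?_
    simp only [zero_smul, NormedSpace.exp_zero, one_mul, mul_one, Ring.lie_def]
    congr 1
    noncomm_ring
  have hc0 : P (NormedSpace.exp ((0 : ℝ) • Y) * (u : 𝔸) * NormedSpace.exp ((0 : ℝ) • (-Y)))
      = u := by
    simp only [zero_smul, NormedSpace.exp_zero, one_mul, mul_one]
    exact hR.P_m u
  have hconst : ∀ s : ℝ, Lag m F (P (NormedSpace.exp (s • Y) * (u : 𝔸)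
      * NormedSpace.exp (s • (-Y)))) = Lag m F u := by
    intro s
    obtain ⟨k, hk, hk'⟩ := lieAlg_unit ((hh Y).1 hY) s
    have e1 : NormedSpace.exp (s • Y) * (u : 𝔸) * NormedSpace.exp (s • (-Y)) = Adj k u := by
      rw [hk', smul_neg]
    have e2 : NormedSpace.exp (s • Y) * (u : 𝔸) * NormedSpace.exp (s • (-Y)) ∈ g := by
      have := W_mem hR.lie (z := s • (-Y)) (g.smul_mem s (g.neg_mem (hR.h_le hY))) hug
      rwa [W, smul_neg, neg_neg, ← smul_neg] at this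
    unfold Lag
    rw [F_P hg hh hR hF e2, e1, Adj, hF.inv k hk _ ((hg _).1 hug)]
  have hd : HasDerivAt (fun s : ℝ => Lag m F (P (NormedSpace.exp (s • Y) * (u : 𝔸)
      * NormedSpace.exp (s • (-Y))))) (fderiv ℝ (Lag m F) u (P ⁅Y, (u : 𝔸)⁆)) 0 := by
    have h1 : HasFDerivAt (Lag m F) (fderiv ℝ (Lag m F) u) (P (NormedSpace.exp ((0 : ℝ) • Y)
        * (u : 𝔸) * NormedSpace.exp ((0 : ℝ) • (-Y)))) := by
      rw [hc0]
      exact (differentiableAt_of_ne hsm hu).hasFDerivAt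
    exact h1.comp_hasDerivAt (0 : ℝ) hc
  have hd' : HasDerivAt (fun s : ℝ => Lag m F (P (NormedSpace.exp (s • Y) * (u : 𝔸)
      * NormedSpace.exp (s • (-Y))))) 0 0 := by
    have : (fun s : ℝ => Lag m F (P (NormedSpace.exp (s • Y) * (u : 𝔸)
      * NormedSpace.exp (s • (-Y))))) = fun _ => Lag m F u := funext hconst
    rw [this]
    exact hasDerivAt_const _ _
  exact hd.unique hd'

theorem chartLag_eq (hg : ∀ X, X ∈ g ↔ X ∈ lieAlg G) (hh : ∀ X, X ∈ h ↔ X ∈ lieAlg H)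
    (hR : RedData g h m P) (hF : InvFinsler G H m F) (x y : m) :
    chartLag m F x y = Lag m F (P (Theta (x : 𝔸) (y : 𝔸))) := by
  have h1 : Theta (x : 𝔸) (y : 𝔸) ∈ g := Theta_mem hR.lie (hR.m_le x.2) (hR.m_le y.2)
  unfold Lag
  rw [F_P hg hh hR hF h1, Theta_apply]
  rfl

/-- strict Cauchy-Schwarz inequality for the fundamental tensor -/
theorem gram_pos (hL : MinkData h m P L) {u b : m} (hub : LinearIndependent ℝ ![u, b]) :
    0 < D2 L u u u * D2 L u b b - D2 L u u b ^ 2 := by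
  have hu : u ≠ 0 := hub.ne_zero 0
  have h1 := hL.pos u hu u hu
  set α := D2 L u u u with hα
  set β := D2 L u u b with hβ
  have hw : α • b - β • u ≠ 0 := by
    intro h0
    have h2 := (LinearIndependent.pair_iff.1 hub) (-β) α (by rw [neg_smul, ← h0]; abel)
    exact h1.ne' h2.2
  have h2 := hL.pos u hu _ hw
  have hs := hL.smooth
  have h3 : D2 L u (α • b - β • u) (α • b - β • u) = α * (α * D2 L u b b - β ^ 2) := by
    have e : ∀ z, D2 L u (α • b - β • u) z = α * D2 L u b z - β * D2 L u u z := by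
      intro z
      rw [sub_eq_add_neg, ← neg_smul, D2_add hs hu, D2_smul hs hu, D2_smul hs hu]
      ring
    rw [e, D2_symm hs hu b, D2_symm hs hu u, e, e, D2_symm hs hu b u, ← hα, ← hβ]
    ring
  rw [h3] at h2
  exact (mul_pos_iff_of_pos_left h1).1 h2

theorem flag_pos_iff (hg : ∀ X, X ∈ g ↔ X ∈ lieAlg G) (hh : ∀ X, X ∈ h ↔ X ∈ lieAlg H)
    (hR : RedData g h m P) (hF : InvFinsler G H m F) {u b : m}
    (hub : LinearIndependent ℝ ![u, b]) :
    0 < flagCurv (chartLag m F) 0 u b ↔ 0 < Rform P (Lag m F) u b := by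
  have hu : u ≠ 0 := hub.ne_zero 0
  have hL := minkData_of hg hh hR hF
  have h1 : chartLag m F = fun x y : m => Lag m F (P (Theta (x : 𝔸) (y : 𝔸))) :=
    funext fun x => funext fun y => chartLag_eq hg hh hR hF x y
  rw [flagCurv, h1, riem_eq_Rop_of hR hL (eta_smooth hR hL)
    (fun u hu w => eta_spec hR hL hu w) (fun Y hY u hu z => inv2 hR hL hY hu z) hu b,
    fund_zero hR hL hu, fund_zero hR hL hu, fund_zero hR hL hu, fund_zero hR hL hu,
    D2_Rop hR hL hu b]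
  exact div_pos_iff_of_pos_right (gram_pos hL hub)

/-- construction of invariant Finsler metrics -/
theorem invFinsler_of (hg : ∀ X, X ∈ g ↔ X ∈ lieAlg G) (hh : ∀ X, X ∈ h ↔ X ∈ lieAlg H)
    (hR : RedData g h m P) (hAd : ∀ k ∈ H, ∀ Z ∈ m, Adj k Z ∈ m)
    (hAdh : ∀ k ∈ H, ∀ Z ∈ h, Adj k Z ∈ h) (hL : MinkData h m P L)
    (hhom : ∀ (c : ℝ) (u : m), L (c • u) = c ^ 2 * L u)
    (hinv : ∀ k ∈ H, ∀ u v : m, (v : 𝔸) = Adj k u → L v = L u)
    (hpos : ∀ u : m, u ≠ 0 → 0 < L u) :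
    InvFinsler G H m (fun X => Real.sqrt (2 * L (P X))) ∧
      Lag m (fun X => Real.sqrt (2 * L (P X))) = L := by
  have h0 : L 0 = 0 := by
    have := hhom 0 0
    simpa using this
  have hnn : ∀ u : m, 0 ≤ L u := by
    intro u
    by_cases hu : u = 0
    · rw [hu, h0]
    · exact (hpos u hu).le
  have hLag : Lag m (fun X => Real.sqrt (2 * L (P X))) = L := by
    funext u
    unfold Lag
    simp only
    rw [hR.P_m, Real.sq_sqrt (by have := hnn u; positivity)]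
    ring
  refine ⟨⟨?_, ?_, ?_, ?_, ?_, ?_⟩, hLag⟩
  · intro X _ Y hY
    rw [map_add, hR.P_h Y ((hh _).2 hY), add_zero]
  · intro k hk X hX
    have hXg := (hg _).2 hX
    have e1 : P ((k : 𝔸) * X * ((k⁻¹ : 𝔸ˣ) : 𝔸)) = ⟨Adj k (P X), hAd k hk _ (P X).2⟩ := by
      have e2 : (k : 𝔸) * X * ((k⁻¹ : 𝔸ˣ) : 𝔸) = Adj k (X - P X) + Adj k (P X) := by
        simp only [Adj]
        noncomm_ring
      rw [e2, map_add, hR.P_h _ (hAdh k hk _ (hR.res X hXg)), zero_add]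
      exact hR.P_m ⟨Adj k (P X), hAd k hk _ (P X).2⟩
    rw [e1, hinv k hk (P X) ⟨Adj k (P X), hAd k hk _ (P X).2⟩ rfl]
  · intro c X _
    rw [map_smul, hhom]
    have : 2 * (c ^ 2 * L (P X)) = c ^ 2 * (2 * L (P X)) := by ring
    rw [this, Real.sqrt_mul (sq_nonneg c), Real.sqrt_sq_eq_abs]
  · intro Z hZ hZ0
    have e1 := hR.P_m ⟨Z, hZ⟩
    simp only at e1
    rw [e1]
    have := hpos ⟨Z, hZ⟩ (fun h => hZ0 (congrArg Subtype.val h))
    exact Real.sqrt_pos.2 (by positivity)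
  · have e1 : (fun Z : m => Real.sqrt (2 * L (P (Z : 𝔸)))) = fun Z : m => Real.sqrt (2 * L Z) :=
      funext fun Z => by rw [hR.P_m]
    show ContDiffOn ℝ ∞ (fun Z : m => Real.sqrt (2 * L (P (Z : 𝔸)))) {0}ᶜ
    rw [e1]
    refine ContDiffOn.sqrt (contDiffOn_const.mul hL.smooth) ?_
    intro Z hZ
    have := hpos Z hZ
    positivity
  · intro Z hZ W hW
    have e1 : (fun y : m => Real.sqrt (2 * L (P (y : 𝔸))) ^ 2 / 2) = L := hLag
    rw [e1]
    exact hL.pos Z hZ W hW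

end Pool.Agent.Helper93.Fin
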