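import Pool.Agent.helper77.FinD

/-!
# MP_f09395 (helper93): Module Lim3, the functions `LL`
-/

noncomputable section

namespace Pool.Agent.Helper93.Fin

open scoped ContDiff
open Filter Topology

section coercive

variable {E : Type*} [NormedAddCommGroup E] [NormedSpace ℝ E] [FiniteDimensional ℝ E]

/-- a positive definite form on a finite dimensional space is coercive -/
theorem exists_coercive (B : E →L[ℝ] E →L[ℝ] ℝ) (hB : ∀ w : E, w ≠ 0 → 0 < B w w) :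
    ∃ c > 0, ∀ w : E, c * ‖w‖ ^ 2 ≤ B w w := by
  have : ProperSpace E := FiniteDimensional.proper ℝ E
  have hS : IsCompact (Metric.sphere (0 : E) 1) := isCompact_sphere 0 1
  have hne : ∀ w ∈ Metric.sphere (0 : E) 1, w ≠ 0 := by
    intro w hw h
    rw [h] at hw
    simp at hw
  have hc : ContinuousOn (fun w : E => (B w w)⁻¹) (Metric.sphere (0 : E) 1) := by
    refine ContinuousOn.inv₀ ?_ fun w hw => (hB w (hne w hw)).ne'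
    exact ((B.continuous).clm_apply continuous_id).continuousOn
  obtain ⟨C, hC⟩ := hS.exists_bound_of_continuousOn hc
  have hC0 : 0 < max C 1 := lt_max_of_lt_right one_pos
  refine ⟨(max C 1)⁻¹, inv_pos.2 hC0, fun w => ?_⟩
  by_cases hw : w = 0
  · simp [hw]
  have hn : ‖w‖ ≠ 0 := norm_ne_zero_iff.2 hw
  have h1 : ‖(‖w‖⁻¹ • w)‖ = 1 := by
    rw [norm_smul, norm_inv, norm_norm, inv_mul_cancel₀ hn]
  have h2 := hC (‖w‖⁻¹ • w) (by simpa using h1)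
  have hpos : 0 < B (‖w‖⁻¹ • w) (‖w‖⁻¹ • w) := hB _ (smul_ne_zero (inv_ne_zero hn) hw)
  rw [Real.norm_of_nonneg (inv_nonneg.2 hpos.le)] at h2
  have h3 : (B (‖w‖⁻¹ • w) (‖w‖⁻¹ • w))⁻¹ ≤ max C 1 := h2.trans (le_max_left _ _)
  have h4 : (max C 1)⁻¹ ≤ B (‖w‖⁻¹ • w) (‖w‖⁻¹ • w) := by
    rw [inv_le_comm₀ hC0 hpos]
    exact h3
  have h5 : B (‖w‖⁻¹ • w) (‖w‖⁻¹ • w) = (‖w‖⁻¹) ^ 2 * B w w := by
    simp only [map_smul, smul_apply, smul_eq_mul]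
    ring
  rw [h5] at h4
  calc (max C 1)⁻¹ * ‖w‖ ^ 2 ≤ ((‖w‖⁻¹) ^ 2 * B w w) * ‖w‖ ^ 2 := by gcongr
    _ = B w w := by field_simp

/-- bound of the Hessian of a function which is homogeneous of degree two -/
theorem exists_bound_D2 {φ : E → ℝ} (hφ : ContDiffOn ℝ ∞ φ {0}ᶜ)
    (hh : ∀ (c : ℝ) (u : E), φ (c • u) = c ^ 2 * φ u) :
    ∃ C > 0, ∀ u : E, u ≠ 0 → ∀ w : E, |D2 φ u w w| ≤ C * ‖w‖ ^ 2 := by
  have : ProperSpace E := FiniteDimensional.proper ℝ E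
  have hS : IsCompact (Metric.sphere (0 : E) 1 ×ˢ Metric.sphere (0 : E) 1) :=
    (isCompact_sphere 0 1).prod (isCompact_sphere 0 1)
  have hne : ∀ w ∈ Metric.sphere (0 : E) 1, w ≠ 0 := by
    intro w hw h
    rw [h] at hw
    simp at hw
  have hc : ContinuousOn (fun q : E × E => D2 φ q.1 q.2 q.2)
      (Metric.sphere (0 : E) 1 ×ˢ Metric.sphere (0 : E) 1) := by
    intro q hq
    have h1 : Tendsto (fun q : E × E => D2 φ q.1 q.2 q.2) (𝓝 q) (𝓝 (D2 φ q.1 q.2 q.2)) :=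
      D2_tendsto hφ (hne _ hq.1) continuous_fst.continuousAt continuous_snd.continuousAt
        continuous_snd.continuousAt
    exact ContinuousAt.continuousWithinAt h1
  obtain ⟨C, hC⟩ := hS.exists_bound_of_continuousOn hc
  have hC0 : 0 < max C 1 := lt_max_of_lt_right one_pos
  refine ⟨max C 1, hC0, fun u hu w => ?_⟩
  by_cases hw : w = 0
  · rw [hw]
    have : D2 φ u 0 0 = 0 := by
      unfold D2
      rw [map_zero]
    rw [this]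
    simp
  have hn : ‖w‖ ≠ 0 := norm_ne_zero_iff.2 hw
  have hnu : ‖u‖ ≠ 0 := norm_ne_zero_iff.2 hu
  have h1 : ‖(‖w‖⁻¹ • w)‖ = 1 := by
    rw [norm_smul, norm_inv, norm_norm, inv_mul_cancel₀ hn]
  have h1u : ‖(‖u‖⁻¹ • u)‖ = 1 := by
    rw [norm_smul, norm_inv, norm_norm, inv_mul_cancel₀ hnu]
  have h2 := hC (‖u‖⁻¹ • u, ‖w‖⁻¹ • w) ⟨by simpa using h1u, by simpa using h1⟩
  simp only at h2
  rw [D2_scale hφ hh (inv_ne_zero hnu) hu, D2_smul hφ hu, D2_smul_right hφ hu,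
    Real.norm_eq_abs] at h2
  have h3 : ‖w‖⁻¹ * (‖w‖⁻¹ * D2 φ u w w) = (‖w‖⁻¹) ^ 2 * D2 φ u w w := by ring
  rw [h3, abs_mul, abs_of_nonneg (by positivity)] at h2
  calc |D2 φ u w w| = ((‖w‖⁻¹) ^ 2 * |D2 φ u w w|) * ‖w‖ ^ 2 := by field_simp
    _ ≤ C * ‖w‖ ^ 2 := by gcongr
    _ ≤ max C 1 * ‖w‖ ^ 2 := by gcongr; exact le_max_left _ _

end coercive

variable {𝔸 : Type*} [NormedRing 𝔸] [NormedAlgebra ℝ 𝔸]
variable {g h m : Submodule ℝ 𝔸} {P : 𝔸 →L[ℝ] m} {φ : m → ℝ}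
variable {k p : Submodule ℝ 𝔸} {Q : 𝔸 →ₗ[ℝ] 𝔸 →ₗ[ℝ] ℝ} {Ph Pk Pp : 𝔸 →L[ℝ] 𝔸}

/-! ### decompositions -/

theorem sym_decomp (hS : SymData h k p Q Ph Pk Pp) {X : 𝔸} (hX : X ∈ h ⊔ k ⊔ p) :
    Ph X ∈ h ∧ Pk X ∈ k ∧ Pp X ∈ p ∧ X = Ph X + Pk X + Pp X := by
  obtain ⟨Y, hY, z, hz, rfl⟩ := Submodule.mem_sup.1 hX
  obtain ⟨x, hx, y, hy, rfl⟩ := Submodule.mem_sup.1 hY
  simp only [map_add, hS.Ph_h x hx, hS.Ph_k y hy, hS.Ph_p z hz, hS.Pk_h x hx, hS.Pk_k y hy,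
    hS.Pk_p z hz, hS.Pp_h x hx, hS.Pp_k y hy, hS.Pp_p z hz, add_zero, zero_add]
  exact ⟨hx, hy, hz, trivial⟩

theorem sym_decomp_m (hS : SymData h k p Q Ph Pk Pp) (hm : m = k ⊔ p) (u : m) :
    Pk (u : 𝔸) ∈ k ∧ Pp (u : 𝔸) ∈ p ∧ (u : 𝔸) = Pk u + Pp u := by
  have hu : (u : 𝔸) ∈ k ⊔ p := hm ▸ u.2
  obtain ⟨y, hy, z, hz, h⟩ := Submodule.mem_sup.1 hu
  rw [← h]
  simp only [map_add, hS.Pk_k y hy, hS.Pk_p z hz, hS.Pp_k y hy, hS.Pp_p z hz, add_zero, zero_add]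
  exact ⟨hy, hz, trivial⟩

theorem mem_sup_h {X : 𝔸} (hX : X ∈ h) : X ∈ h ⊔ k ⊔ p :=
  Submodule.mem_sup_left (Submodule.mem_sup_left hX)
theorem mem_sup_k {X : 𝔸} (hX : X ∈ k) : X ∈ h ⊔ k ⊔ p :=
  Submodule.mem_sup_left (Submodule.mem_sup_right hX)
theorem mem_sup_p {X : 𝔸} (hX : X ∈ p) : X ∈ h ⊔ k ⊔ p := Submodule.mem_sup_right hX

theorem lie_neg_swap (X Y : 𝔸) : ⁅X, Y⁆ = -⁅Y, X⁆ := by
  rw [Ring.lie_def, Ring.lie_def]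
  abel

theorem Q_self_lie (hS : SymData h k p Q Ph Pk Pp) (X Y : 𝔸) : Q X ⁅Y, X⁆ = 0 := by
  have h1 : Q X ⁅Y, X⁆ = Q ⁅X, Y⁆ X := (hS.Qinv X Y X).symm
  have h2 : Q ⁅X, Y⁆ X = - Q X ⁅Y, X⁆ := by
    rw [lie_neg_swap X Y, map_neg, LinearMap.neg_apply, hS.Qsymm]
  linarith

theorem redData_of_sym (hS : SymData h k p Q Ph Pk Pp) (hm : m = k ⊔ p)
    (hP : ∀ X, (P X : 𝔸) = Pk X + Pp X) : RedData (h ⊔ k ⊔ p) h m P where
  lie := by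
    intro X hX Y hY
    obtain ⟨hX1, hX2, hX3, hX4⟩ := sym_decomp hS hX
    obtain ⟨hY1, hY2, hY3, hY4⟩ := sym_decomp hS hY
    rw [hX4, hY4]
    have kh : ∀ A ∈ k, ∀ B ∈ h, ⁅A, B⁆ = 0 := fun A hA B hB => by
      rw [lie_neg_swap, hS.hk B hB A hA, neg_zero]
    have e : ⁅Ph X + Pk X + Pp X, Ph Y + Pk Y + Pp Y⁆
        = ⁅Ph X, Ph Y⁆ + ⁅Pk X, Pk Y⁆ + (⁅Ph X, Pp Y⁆ + ⁅Pk X, Pp Y⁆
          + (-⁅Ph Y, Pp X⁆ - ⁅Pk Y, Pp X⁆)) + ⁅Pp X, Pp Y⁆ := by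
      have h1 := hS.hk _ hX1 _ hY2
      have h2 := kh _ hX2 _ hY1
      simp only [Ring.lie_def] at h1 h2 ⊢
      have : (Ph X + Pk X + Pp X) * (Ph Y + Pk Y + Pp Y)
          - (Ph Y + Pk Y + Pp Y) * (Ph X + Pk X + Pp X)
          = (Ph X * Ph Y - Ph Y * Ph X) + (Pk X * Pk Y - Pk Y * Pk X)
          + (Ph X * Pp Y - Pp Y * Ph X + (Pk X * Pp Y - Pp Y * Pk X)
          + (-(Ph Y * Pp X - Pp X * Ph Y) - (Pk Y * Pp X - Pp X * Pk Y)))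
          + (Pp X * Pp Y - Pp Y * Pp X) + (Ph X * Pk Y - Pk Y * Ph X)
          + (Pk X * Ph Y - Ph Y * Pk X) := by noncomm_ring
      rw [this, h1, h2, add_zero, add_zero]
    rw [e]
    refine Submodule.add_mem _ (Submodule.add_mem _ (Submodule.add_mem _ ?_ ?_) ?_) ?_
    · exact mem_sup_h (hS.hh _ hX1 _ hY1)
    · exact mem_sup_k (hS.kk _ hX2 _ hY2)
    · refine mem_sup_p ?_
      refine Submodule.add_mem _ (Submodule.add_mem _ (hS.hp _ hX1 _ hY3) (hS.kp _ hX2 _ hY3)) ?_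
      exact Submodule.sub_mem _ (Submodule.neg_mem _ (hS.hp _ hY1 _ hX3)) (hS.kp _ hY2 _ hX3)
    · exact Submodule.mem_sup_left (hS.pp _ hX3 _ hY3)
  m_le := by
    rw [hm]
    exact sup_le (fun X hX => mem_sup_k hX) (fun X hX => mem_sup_p hX)
  h_le := fun X hX => mem_sup_h hX
  P_m := by
    intro z
    apply Subtype.ext
    rw [hP]
    exact (sym_decomp_m hS hm z).2.2.symm
  P_h := by
    intro Y hY
    apply Subtype.ext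
    rw [hP, hS.Pk_h Y hY, hS.Pp_h Y hY]
    simp
  res := by
    intro X hX
    obtain ⟨hX1, hX2, hX3, hX4⟩ := sym_decomp hS hX
    rw [hP]
    have : X - (Pk X + Pp X) = Ph X := by
      nth_rewrite 1 [hX4]
      abel
    rw [this]
    exact hX1
  ad := by
    intro Y hY z hz
    obtain ⟨h1, h2, h3⟩ := sym_decomp_m hS hm ⟨z, hz⟩
    simp only at h1 h2 h3
    rw [h3, hm]
    have : ⁅Y, Pk z + Pp z⁆ = ⁅Y, Pp z⁆ := by
      have h4 := hS.hk _ hY _ h1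
      rw [Ring.lie_def] at h4 ⊢
      rw [Ring.lie_def]
      have h5 : Y * (Pk z + Pp z) - (Pk z + Pp z) * Y
        = (Y * Pk z - Pk z * Y) + (Y * Pp z - Pp z * Y) := by noncomm_ring
      rw [h5, h4, zero_add]
    rw [this]
    exact Submodule.mem_sup_right (hS.hp _ hY _ h2)
  hh := hS.hh

/-! ### the quadratic part -/

variable [FiniteDimensional ℝ 𝔸]

/-- `Q` as a continuous bilinear map -/
def Qc (Q : 𝔸 →ₗ[ℝ] 𝔸 →ₗ[ℝ] ℝ) : 𝔸 →L[ℝ] 𝔸 →L[ℝ] ℝ :=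
  LinearMap.toContinuousLinearMap
    ((LinearMap.toContinuousLinearMap : (𝔸 →ₗ[ℝ] ℝ) ≃ₗ[ℝ] (𝔸 →L[ℝ] ℝ)).toLinearMap ∘ₗ Q)

@[simp] theorem Qc_apply (Q : 𝔸 →ₗ[ℝ] 𝔸 →ₗ[ℝ] ℝ) (X Y : 𝔸) : Qc Q X Y = Q X Y := rfl

/-- the form `Q(x, y) + r Q(a, c)` -/
def BL (m : Submodule ℝ 𝔸) (Q : 𝔸 →ₗ[ℝ] 𝔸 →ₗ[ℝ] ℝ) (Pk Pp : 𝔸 →L[ℝ] 𝔸) (r : ℝ) :
    m →L[ℝ] m →L[ℝ] ℝ :=
  (Qc Q).bilinearComp (Pp.comp m.subtypeL) (Pp.comp m.subtypeL)
    + r • (Qc Q).bilinearComp (Pk.comp m.subtypeL) (Pk.comp m.subtypeL)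

theorem BL_apply (r : ℝ) (a b : m) :
    BL m Q Pk Pp r a b = Q (Pp a) (Pp b) + r * Q (Pk a) (Pk b) := by
  simp [BL]

theorem LL_eq (r t : ℝ) (u : m) :
    LL Q Pk Pp r t φ u = (1 / 2) * BL m Q Pk Pp r u u + t * φ u := by
  rw [LL, BL_apply]
  ring

theorem LL_eq' (r t : ℝ) : (LL Q Pk Pp r t φ : m → ℝ) =
    fun u => (1 / 2) * BL m Q Pk Pp r u u + t * φ u := funext fun u => LL_eq r t u

theorem BL_symm (hS : SymData h k p Q Ph Pk Pp) (r : ℝ) (a b : m) :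
    BL m Q Pk Pp r a b = BL m Q Pk Pp r b a := by
  rw [BL_apply, BL_apply, hS.Qsymm (Pp a), hS.Qsymm (Pk a)]

theorem BL_pos (hS : SymData h k p Q Ph Pk Pp) (hm : m = k ⊔ p) {r : ℝ} (hr : 0 < r) (w : m)
    (hw : w ≠ 0) : 0 < BL m Q Pk Pp r w w := by
  obtain ⟨h1, h2, h3⟩ := sym_decomp_m hS hm w
  rw [BL_apply]
  have nn : ∀ X ∈ h ⊔ k ⊔ p, 0 ≤ Q X X := by
    intro X hX
    by_cases h0 : X = 0
    · simp [h0]
    · exact (hS.Qpos X hX h0).le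
  by_cases hp0 : Pp (w : 𝔸) = 0
  · have hk0 : Pk (w : 𝔸) ≠ 0 := by
      intro h4
      apply hw
      apply Subtype.ext
      rw [h3, h4, hp0]
      simp
    have := hS.Qpos _ (mem_sup_k h1) hk0
    have h5 := nn _ (mem_sup_p h2)
    nlinarith
  · have := hS.Qpos _ (mem_sup_p h2) hp0
    have h5 := nn _ (mem_sup_k h1)
    nlinarith

theorem LL_smooth (hφ : ContDiffOn ℝ ∞ φ {0}ᶜ) (r t : ℝ) :
    ContDiffOn ℝ ∞ (LL Q Pk Pp r t φ) {0}ᶜ := by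
  rw [LL_eq']
  refine ContDiffOn.add (contDiffOn_const.mul ?_) (contDiffOn_const.mul hφ)
  exact ((BL m Q Pk Pp r).contDiff.clm_apply contDiff_id).contDiffOn

theorem LL_D1 (hS : SymData h k p Q Ph Pk Pp) (hφ : ContDiffOn ℝ ∞ φ {0}ᶜ) (r t : ℝ) {u : m}
    (hu : u ≠ 0) (a : m) : D1 (LL Q Pk Pp r t φ) u a
      = Q (Pp u) (Pp a) + r * Q (Pk u) (Pk a) + t * D1 φ u a := by
  rw [LL_eq', D1]
  have h1 : HasFDerivAt (fun u : m => BL m Q Pk Pp r u u)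
      ((BL m Q Pk Pp r u).comp (ContinuousLinearMap.id ℝ m) + (BL m Q Pk Pp r).flip (id u)) u :=
    ((BL m Q Pk Pp r).hasFDerivAt).clm_apply (hasFDerivAt_id u)
  have h2 := (h1.const_mul (1 / 2)).add
    (((differentiableAt_of_ne hφ hu).hasFDerivAt).const_mul t)
  have h3 : HasFDerivAt (fun u : m => (1 / 2) * BL m Q Pk Pp r u u + t * φ u) _ u := h2
  rw [h3.fderiv, ← BL_apply]
  simp only [ContinuousLinearMap.comp_id, id_eq, add_apply,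
    smul_apply, ContinuousLinearMap.flip_apply, smul_eq_mul, D1]
  rw [BL_symm hS r a u]
  ring

theorem LL_D1' (hS : SymData h k p Q Ph Pk Pp) (hφ : ContDiffOn ℝ ∞ φ {0}ᶜ) (r t : ℝ) {u : m}
    (hu : u ≠ 0) (a : m) : D1 (LL Q Pk Pp r t φ) u a
      = BL m Q Pk Pp r u a + t * D1 φ u a := by
  rw [LL_D1 hS hφ r t hu, BL_apply]

theorem LL_D2' (hS : SymData h k p Q Ph Pk Pp) (hφ : ContDiffOn ℝ ∞ φ {0}ᶜ) (r t : ℝ) {u : m}
    (hu : u ≠ 0) (a b : m) : D2 (LL Q Pk Pp r t φ) u a b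
      = BL m Q Pk Pp r a b + t * D2 φ u a b := by
  rw [D2]
  have h0 : (fun z => D1 (LL Q Pk Pp r t φ) z a) =ᶠ[nhds u]
      fun z => (BL m Q Pk Pp r).flip a z + t * D1 φ z a :=
    (eventually_ne' hu).mono fun z hz => by
      simp only [ContinuousLinearMap.flip_apply]
      exact LL_D1' hS hφ r t hz a
  rw [h0.fderiv_eq]
  have h2 : HasFDerivAt (fun z => (BL m Q Pk Pp r).flip a z + t * D1 φ z a) _ u :=
    (((BL m Q Pk Pp r).flip a).hasFDerivAt).add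
      (((differentiableAt_of_ne (D1_smooth hφ a) hu).hasFDerivAt).const_mul t)
  rw [h2.fderiv]
  simp only [add_apply,
    smul_apply, ContinuousLinearMap.flip_apply, smul_eq_mul]
  rw [BL_symm hS r b a, D2]

theorem LL_D2 (hS : SymData h k p Q Ph Pk Pp) (hφ : ContDiffOn ℝ ∞ φ {0}ᶜ) (r t : ℝ) {u : m}
    (hu : u ≠ 0) (a b : m) : D2 (LL Q Pk Pp r t φ) u a b
      = Q (Pp a) (Pp b) + r * Q (Pk a) (Pk b) + t * D2 φ u a b := by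
  rw [LL_D2' hS hφ r t hu, BL_apply]

theorem LL_D3 (hS : SymData h k p Q Ph Pk Pp) (hφ : ContDiffOn ℝ ∞ φ {0}ᶜ) (r t : ℝ) {u : m}
    (hu : u ≠ 0) (a b c : m) : D3 (LL Q Pk Pp r t φ) u a b c = t * D3 φ u a b c := by
  rw [D3]
  have h0 : (fun z => D2 (LL Q Pk Pp r t φ) z a b) =ᶠ[nhds u]
      fun z => t * D2 φ z a b + BL m Q Pk Pp r a b :=
    (eventually_ne' hu).mono fun z hz => by
      simp only
      rw [LL_D2' hS hφ r t hz a b, add_comm]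
  rw [h0.fderiv_eq]
  have h2 : HasFDerivAt (fun z => t * D2 φ z a b + BL m Q Pk Pp r a b) _ u :=
      (((differentiableAt_of_ne (D2_smooth hφ a b) hu).hasFDerivAt).const_mul t).add_const _
  rw [h2.fderiv]
  simp only [smul_apply, smul_eq_mul]
  rw [D3]

theorem LL_D4 (hS : SymData h k p Q Ph Pk Pp) (hφ : ContDiffOn ℝ ∞ φ {0}ᶜ) (r t : ℝ) {u : m}
    (hu : u ≠ 0) (a b c d : m) : D4 (LL Q Pk Pp r t φ) u a b c d = t * D4 φ u a b c d := by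
  rw [D4]
  have h0 : (fun z => D3 (LL Q Pk Pp r t φ) z a b c) =ᶠ[nhds u]
      fun z => t * D3 φ z a b c :=
    (eventually_ne' hu).mono fun z hz => by
      simp only
      rw [LL_D3 hS hφ r t hz a b c]
  rw [h0.fderiv_eq]
  have h2 : HasFDerivAt (fun z => t * D3 φ z a b c) _ u :=
      (((differentiableAt_of_ne (D3_smooth hφ a b c) hu).hasFDerivAt).const_mul t)
  rw [h2.fderiv]
  simp only [smul_apply, smul_eq_mul]
  rw [D4]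

theorem LL_hom (hh : ∀ (c : ℝ) (u : m), φ (c • u) = c ^ 2 * φ u) (r t : ℝ) (c : ℝ) (u : m) :
    LL Q Pk Pp r t φ (c • u) = c ^ 2 * LL Q Pk Pp r t φ u := by
  rw [LL_eq, LL_eq, hh]
  simp only [map_smul, smul_apply, smul_eq_mul]
  ring

/-- uniform coercivity of the Hessian of `LL` for small `t` -/
theorem LL_coercive (hS : SymData h k p Q Ph Pk Pp) (hm : m = k ⊔ p)
    (hφ : PhiData h m P Pk Pp φ) {r : ℝ} (hr : 0 < r) :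
    ∃ t₀ > 0, ∃ c > 0, ∀ t, |t| < t₀ → ∀ u : m, u ≠ 0 → ∀ w : m,
      c * ‖w‖ ^ 2 ≤ D2 (LL Q Pk Pp r t φ) u w w := by
  obtain ⟨c, hc, hc'⟩ := exists_coercive (BL m Q Pk Pp r) (BL_pos hS hm hr)
  obtain ⟨C, hC, hC'⟩ := exists_bound_D2 hφ.smooth hφ.hom
  refine ⟨c / (2 * C), by positivity, c / 2, by positivity, fun t ht u hu w => ?_⟩
  rw [LL_D2' hS hφ.smooth r t hu]
  have h1 := hc' w
  have h2 := hC' u hu w
  have h3 : |t| * C ≤ c / 2 := by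
    have := (lt_div_iff₀ (by positivity : (0 : ℝ) < 2 * C)).1 ht
    nlinarith
  have h4 : |t * D2 φ u w w| ≤ c / 2 * ‖w‖ ^ 2 := by
    rw [abs_mul]
    calc |t| * |D2 φ u w w| ≤ |t| * (C * ‖w‖ ^ 2) := by gcongr
      _ = (|t| * C) * ‖w‖ ^ 2 := by ring
      _ ≤ c / 2 * ‖w‖ ^ 2 := by gcongr
  have h5 := neg_abs_le (t * D2 φ u w w)
  nlinarith

theorem BL_inv (hS : SymData h k p Q Ph Pk Pp) (hm : m = k ⊔ p)
    (hP : ∀ X, (P X : 𝔸) = Pk X + Pp X) (r : ℝ) {Y : 𝔸} (hY : Y ∈ h) (u : m) :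
    BL m Q Pk Pp r u (P ⁅Y, (u : 𝔸)⁆) = 0 := by
  obtain ⟨h1, h2, h3⟩ := sym_decomp_m hS hm u
  have e : ⁅Y, (u : 𝔸)⁆ = ⁅Y, Pp (u : 𝔸)⁆ := by
    nth_rewrite 1 [h3]
    have h4 := hS.hk _ hY _ h1
    rw [Ring.lie_def] at h4 ⊢
    rw [Ring.lie_def]
    have h5 : Y * (Pk (u : 𝔸) + Pp u) - (Pk (u : 𝔸) + Pp u) * Y
      = (Y * Pk (u : 𝔸) - Pk (u : 𝔸) * Y) + (Y * Pp (u : 𝔸) - Pp (u : 𝔸) * Y) := by noncomm_ring
    rw [h5, h4, zero_add]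
  have hp' := hS.hp _ hY _ h2
  rw [BL_apply, hP, e, hS.Pk_p _ hp', hS.Pp_p _ hp', zero_add, hS.Pk_p _ hp', hS.Pp_p _ hp',
    Q_self_lie hS]
  simp

theorem LL_mink (hS : SymData h k p Q Ph Pk Pp) (hm : m = k ⊔ p)
    (hP : ∀ X, (P X : 𝔸) = Pk X + Pp X) (hφ : PhiData h m P Pk Pp φ) {r : ℝ} (hr : 0 < r) :
    ∃ t₀ > 0, ∀ t, |t| < t₀ → MinkData h m P (LL Q Pk Pp r t φ) ∧
      ∀ u : m, u ≠ 0 → 0 < LL Q Pk Pp r t φ u := by
  obtain ⟨t₀, ht₀, c, hc, H⟩ := LL_coercive hS hm hφ hr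
  refine ⟨t₀, ht₀, fun t ht => ?_⟩
  have hpos : ∀ u : m, u ≠ 0 → ∀ w : m, w ≠ 0 → 0 < D2 (LL Q Pk Pp r t φ) u w w := by
    intro u hu w hw
    have h1 := H t ht u hu w
    have h2 : 0 < ‖w‖ := norm_pos_iff.2 hw
    have h3 : 0 < c * ‖w‖ ^ 2 := by positivity
    linarith
  refine ⟨⟨LL_smooth hφ.smooth r t, hpos, ?_⟩, ?_⟩
  · intro Y hY u hu
    rw [LL_D1' hS hφ.smooth r t hu, hφ.inv Y hY u hu, BL_inv hS hm hP r hY]
    simp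
  · intro u hu
    have h1 := hpos u hu u hu
    rw [euler2 (LL_smooth hφ.smooth r t) (LL_hom hφ.hom r t) hu,
      euler1 (LL_smooth hφ.smooth r t) (LL_hom hφ.hom r t) hu] at h1
    linarith

end Pool.Agent.Helper93.Fin
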