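import Pool.Agent.Helper93.Fin.E
import Pool.Agent.helper18.FinLim3

/-!
# MP_f09395 (helper93): Module Lim4, the unscaled limit of the curvature form
-/

noncomputable section

namespace Pool.Agent.Helper93.Fin

open scoped ContDiff
open Filter Topology

section solve

variable {E : Type*} [NormedAddCommGroup E] [NormedSpace ℝ E] [FiniteDimensional ℝ E]

/-- pointwise convergence to zero of functionals on a finite dimensional space is uniform -/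
theorem clm_tendsto_zero {ι : Type*} {l : Filter ι} {G : ι → E →L[ℝ] ℝ}
    (hG : ∀ z, Tendsto (fun n => G n z) l (𝓝 0)) : Tendsto (fun n => ‖G n‖) l (𝓝 0) := by
  obtain ⟨C, hC, H⟩ := (Module.finBasis ℝ E).exists_opNorm_le (F := ℝ)
  have h1 : Tendsto (fun n => C * ∑ i, ‖G n (Module.finBasis ℝ E i)‖) l (𝓝 0) := by
    have h2 : Tendsto (fun n => ∑ i, ‖G n (Module.finBasis ℝ E i)‖) l
        (𝓝 (∑ _i : Fin (Module.finrank ℝ E), (0 : ℝ))) := by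
      refine tendsto_finsetSum _ fun i _ => ?_
      have := (hG (Module.finBasis ℝ E i)).norm
      simpa using this
    have h3 := h2.const_mul C
    simpa using h3
  refine squeeze_zero (fun n => norm_nonneg _) (fun n => ?_) h1
  refine H (Finset.sum_nonneg fun i _ => norm_nonneg _) fun i => ?_
  exact Finset.single_le_sum (f := fun i => ‖G n (Module.finBasis ℝ E i)‖)
    (fun i _ => norm_nonneg _) (Finset.mem_univ i)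

theorem solve_lim {ι : Type*} {l : Filter ι} {x : ι → E} {x₀ : E} {G : ι → E →L[ℝ] ℝ}
    {c : ℝ} (hc : 0 < c) (hx : ∀ᶠ n in l, c * ‖x n - x₀‖ ^ 2 ≤ G n (x n - x₀))
    (hG : ∀ z, Tendsto (fun n => G n z) l (𝓝 0)) : Tendsto x l (𝓝 x₀) := by
  rw [tendsto_iff_norm_sub_tendsto_zero]
  have h1 : Tendsto (fun n => c⁻¹ * ‖G n‖) l (𝓝 0) := by
    simpa using (clm_tendsto_zero hG).const_mul c⁻¹
  refine squeeze_zero' (Eventually.of_forall fun n => norm_nonneg _) ?_ h1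
  filter_upwards [hx] with n hn
  by_cases h0 : ‖x n - x₀‖ = 0
  · rw [h0]
    positivity
  have hpos : 0 < ‖x n - x₀‖ := lt_of_le_of_ne (norm_nonneg _) (Ne.symm h0)
  have h2 : c * ‖x n - x₀‖ ^ 2 ≤ ‖G n‖ * ‖x n - x₀‖ :=
    hn.trans ((le_abs_self _).trans ((G n).le_opNorm _))
  have h3 : c * ‖x n - x₀‖ ≤ ‖G n‖ := by
    have : (c * ‖x n - x₀‖) * ‖x n - x₀‖ ≤ ‖G n‖ * ‖x n - x₀‖ := by nlinarith
    exact le_of_mul_le_mul_right this hpos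
  rw [inv_mul_eq_div, le_div_iff₀ hc]
  linarith

end solve

variable {𝔸 : Type*} [NormedRing 𝔸] [NormedAlgebra ℝ 𝔸] [FiniteDimensional ℝ 𝔸]
variable {g h m : Submodule ℝ 𝔸} {P : 𝔸 →L[ℝ] m} {φ : m → ℝ}
variable {k p : Submodule ℝ 𝔸} {Q : 𝔸 →ₗ[ℝ] 𝔸 →ₗ[ℝ] ℝ} {Ph Pk Pp : 𝔸 →L[ℝ] 𝔸}

theorem lie_tendsto {ι : Type*} {l : Filter ι} {X Y : ι → 𝔸} {X₀ Y₀ : 𝔸}
    (hX : Tendsto X l (𝓝 X₀)) (hY : Tendsto Y l (𝓝 Y₀)) :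
    Tendsto (fun n => ⁅X n, Y n⁆) l (𝓝 ⁅X₀, Y₀⁆) := by
  simp only [Ring.lie_def]
  exact (hX.mul hY).sub (hY.mul hX)

theorem P_tendsto {ι : Type*} {l : Filter ι} {X : ι → 𝔸} {X₀ : 𝔸}
    (hX : Tendsto X l (𝓝 X₀)) : Tendsto (fun n => P (X n)) l (𝓝 (P X₀)) :=
  (P.continuous.tendsto X₀).comp hX

theorem coe_tendsto {ι : Type*} {l : Filter ι} {X : ι → m} {X₀ : m}
    (hX : Tendsto X l (𝓝 X₀)) : Tendsto (fun n => (X n : 𝔸)) l (𝓝 (X₀ : 𝔸)) :=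
  (continuous_subtype_val.tendsto X₀).comp hX

theorem BL_tendsto (r : ℝ) {ι : Type*} {l : Filter ι} {X Y : ι → m} {X₀ Y₀ : m}
    (hX : Tendsto X l (𝓝 X₀)) (hY : Tendsto Y l (𝓝 Y₀)) :
    Tendsto (fun n => BL m Q Pk Pp r (X n) (Y n)) l (𝓝 (BL m Q Pk Pp r X₀ Y₀)) :=
  clm_tendsto (((BL m Q Pk Pp r).continuous.tendsto X₀).comp hX) hY

section limits

variable {t : ℕ → ℝ} {u : ℕ → m} {u₀ : m}

theorem LD1_tendsto (hS : SymData h k p Q Ph Pk Pp) (hφ : ContDiffOn ℝ ∞ φ {0}ᶜ) (r : ℝ)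
    (ht : Tendsto t atTop (𝓝 0)) (hu₀ : u₀ ≠ 0) (hu : Tendsto u atTop (𝓝 u₀))
    {X : ℕ → m} {X₀ : m} (hX : Tendsto X atTop (𝓝 X₀)) :
    Tendsto (fun n => D1 (LL Q Pk Pp r (t n) φ) (u n) (X n)) atTop
      (𝓝 (BL m Q Pk Pp r u₀ X₀)) := by
  have h1 : Tendsto (fun n => BL m Q Pk Pp r (u n) (X n) + t n * D1 φ (u n) (X n)) atTop
      (𝓝 (BL m Q Pk Pp r u₀ X₀ + 0 * D1 φ u₀ X₀)) :=
    (BL_tendsto r hu hX).add (ht.mul (D1_tendsto hφ hu₀ hu hX))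
  rw [zero_mul, add_zero] at h1
  refine h1.congr' ?_
  filter_upwards [hu.eventually (eventually_ne' hu₀)] with n hn
  exact (LL_D1' hS hφ r (t n) hn (X n)).symm

theorem LD2_tendsto (hS : SymData h k p Q Ph Pk Pp) (hφ : ContDiffOn ℝ ∞ φ {0}ᶜ) (r : ℝ)
    (ht : Tendsto t atTop (𝓝 0)) (hu₀ : u₀ ≠ 0) (hu : Tendsto u atTop (𝓝 u₀))
    {X Y : ℕ → m} {X₀ Y₀ : m} (hX : Tendsto X atTop (𝓝 X₀)) (hY : Tendsto Y atTop (𝓝 Y₀)) :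
    Tendsto (fun n => D2 (LL Q Pk Pp r (t n) φ) (u n) (X n) (Y n)) atTop
      (𝓝 (BL m Q Pk Pp r X₀ Y₀)) := by
  have h1 : Tendsto (fun n => BL m Q Pk Pp r (X n) (Y n) + t n * D2 φ (u n) (X n) (Y n)) atTop
      (𝓝 (BL m Q Pk Pp r X₀ Y₀ + 0 * D2 φ u₀ X₀ Y₀)) :=
    (BL_tendsto r hX hY).add (ht.mul (D2_tendsto hφ hu₀ hu hX hY))
  rw [zero_mul, add_zero] at h1
  refine h1.congr' ?_
  filter_upwards [hu.eventually (eventually_ne' hu₀)] with n hn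
  exact (LL_D2' hS hφ r (t n) hn (X n) (Y n)).symm

theorem LD3_tendsto (hS : SymData h k p Q Ph Pk Pp) (hφ : ContDiffOn ℝ ∞ φ {0}ᶜ) (r : ℝ)
    (ht : Tendsto t atTop (𝓝 0)) (hu₀ : u₀ ≠ 0) (hu : Tendsto u atTop (𝓝 u₀))
    {X Y Z : ℕ → m} {X₀ Y₀ Z₀ : m} (hX : Tendsto X atTop (𝓝 X₀)) (hY : Tendsto Y atTop (𝓝 Y₀))
    (hZ : Tendsto Z atTop (𝓝 Z₀)) :
    Tendsto (fun n => D3 (LL Q Pk Pp r (t n) φ) (u n) (X n) (Y n) (Z n)) atTop (𝓝 0) := by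
  have h1 : Tendsto (fun n => t n * D3 φ (u n) (X n) (Y n) (Z n)) atTop
      (𝓝 (0 * D3 φ u₀ X₀ Y₀ Z₀)) := ht.mul (D3_tendsto hφ hu₀ hu hX hY hZ)
  rw [zero_mul] at h1
  refine h1.congr' ?_
  filter_upwards [hu.eventually (eventually_ne' hu₀)] with n hn
  exact (LL_D3 hS hφ r (t n) hn (X n) (Y n) (Z n)).symm

theorem LD4_tendsto (hS : SymData h k p Q Ph Pk Pp) (hφ : ContDiffOn ℝ ∞ φ {0}ᶜ) (r : ℝ)
    (ht : Tendsto t atTop (𝓝 0)) (hu₀ : u₀ ≠ 0) (hu : Tendsto u atTop (𝓝 u₀))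
    {X Y Z W : ℕ → m} {X₀ Y₀ Z₀ W₀ : m} (hX : Tendsto X atTop (𝓝 X₀))
    (hY : Tendsto Y atTop (𝓝 Y₀)) (hZ : Tendsto Z atTop (𝓝 Z₀)) (hW : Tendsto W atTop (𝓝 W₀)) :
    Tendsto (fun n => D4 (LL Q Pk Pp r (t n) φ) (u n) (X n) (Y n) (Z n) (W n)) atTop
      (𝓝 0) := by
  have h1 : Tendsto (fun n => t n * D4 φ (u n) (X n) (Y n) (Z n) (W n)) atTop
      (𝓝 (0 * D4 φ u₀ X₀ Y₀ Z₀ W₀)) := ht.mul (D4_tendsto hφ hu₀ hu hX hY hZ hW)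
  rw [zero_mul] at h1
  refine h1.congr' ?_
  filter_upwards [hu.eventually (eventually_ne' hu₀)] with n hn
  exact (LL_D4 hS hφ r (t n) hn (X n) (Y n) (Z n) (W n)).symm

/-- limit of the solution of a linear system `D²L(x_n, ·) = f_n` -/
theorem LL_solve (hS : SymData h k p Q Ph Pk Pp) (hm : m = k ⊔ p)
    (hφ : PhiData h m P Pk Pp φ) {r : ℝ} (hr : 0 < r)
    (ht : Tendsto t atTop (𝓝 0)) (hu₀ : u₀ ≠ 0) (hu : Tendsto u atTop (𝓝 u₀))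
    {x : ℕ → m} {x₀ : m} {f : ℕ → m → ℝ} {f₀ : m → ℝ}
    (hx : ∀ᶠ n in atTop, ∀ z, D2 (LL Q Pk Pp r (t n) φ) (u n) (x n) z = f n z)
    (hf : ∀ z, Tendsto (fun n => f n z) atTop (𝓝 (f₀ z)))
    (hx₀ : ∀ z, BL m Q Pk Pp r x₀ z = f₀ z) : Tendsto x atTop (𝓝 x₀) := by
  obtain ⟨t₀, ht₀, c, hc, H⟩ := LL_coercive hS hm hφ hr
  have hsm : ∀ n, ContDiffOn ℝ ∞ (LL Q Pk Pp r (t n) φ : m → ℝ) {0}ᶜ :=
    fun n => LL_smooth hφ.smooth r (t n)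
  have hne := hu.eventually (eventually_ne' hu₀)
  have htt : ∀ᶠ n in atTop, |t n| < t₀ := by
    have := ht.abs
    rw [abs_zero] at this
    exact this.eventually (gt_mem_nhds ht₀)
  refine solve_lim (G := fun n => fderiv ℝ
    (fun y => D1 (LL Q Pk Pp r (t n) φ) y (x n - x₀)) (u n)) hc ?_ ?_
  · filter_upwards [hne, htt] with n hn htn
    exact H (t n) htn (u n) hn (x n - x₀)
  · intro z
    have h1 : Tendsto (fun n => f n z - D2 (LL Q Pk Pp r (t n) φ) (u n) x₀ z) atTop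
        (𝓝 (f₀ z - BL m Q Pk Pp r x₀ z)) :=
      (hf z).sub (LD2_tendsto hS hφ.smooth r ht hu₀ hu tendsto_const_nhds tendsto_const_nhds)
    rw [hx₀ z, sub_self] at h1
    refine h1.congr' ?_
    filter_upwards [hne, hx] with n hn hxn
    have h2 : D2 (LL Q Pk Pp r (t n) φ) (u n) (x n - x₀) z
        = D2 (LL Q Pk Pp r (t n) φ) (u n) (x n) z - D2 (LL Q Pk Pp r (t n) φ) (u n) x₀ z := by
      have h3 := D2_add (hsm n) hn (x n - x₀) x₀ z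
      rw [sub_add_cancel] at h3
      linarith
    have h4 : (fderiv ℝ (fun y => D1 (LL Q Pk Pp r (t n) φ) y (x n - x₀)) (u n)) z
        = D2 (LL Q Pk Pp r (t n) φ) (u n) (x n - x₀) z := rfl
    rw [h4, h2, hxn z]

end limits

/-! ### brackets -/

theorem lie_parts (hS : SymData h k p Q Ph Pk Pp) {X Y : 𝔸} (hX : X ∈ h ⊔ k ⊔ p)
    (hY : Y ∈ h ⊔ k ⊔ p) :
    Ph ⁅X, Y⁆ = ⁅Ph X, Ph Y⁆ + Ph ⁅Pp X, Pp Y⁆ ∧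
    Pk ⁅X, Y⁆ = ⁅Pk X, Pk Y⁆ + Pk ⁅Pp X, Pp Y⁆ ∧
    Pp ⁅X, Y⁆ = ⁅Ph X, Pp Y⁆ + ⁅Pk X, Pp Y⁆ + (⁅Pp X, Ph Y⁆ + ⁅Pp X, Pk Y⁆) := by
  obtain ⟨hX1, hX2, hX3, hX4⟩ := sym_decomp hS hX
  obtain ⟨hY1, hY2, hY3, hY4⟩ := sym_decomp hS hY
  have kh : ∀ A ∈ k, ∀ B ∈ h, ⁅A, B⁆ = 0 := fun A hA B hB => by
    rw [lie_neg_swap, hS.hk B hB A hA, neg_zero]
  have ph : ∀ A ∈ p, ∀ B ∈ h, ⁅A, B⁆ ∈ p := fun A hA B hB => by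
    rw [lie_neg_swap]
    exact Submodule.neg_mem _ (hS.hp B hB A hA)
  have pk : ∀ A ∈ p, ∀ B ∈ k, ⁅A, B⁆ ∈ p := fun A hA B hB => by
    rw [lie_neg_swap]
    exact Submodule.neg_mem _ (hS.kp B hB A hA)
  have e : ⁅X, Y⁆ = ⁅Ph X, Ph Y⁆ + ⁅Pk X, Pk Y⁆ + (⁅Ph X, Pp Y⁆ + ⁅Pk X, Pp Y⁆
      + (⁅Pp X, Ph Y⁆ + ⁅Pp X, Pk Y⁆)) + ⁅Pp X, Pp Y⁆ := by
    have h1 := hS.hk _ hX1 _ hY2
    have h2 := kh _ hX2 _ hY1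
    nth_rewrite 1 [hX4]
    nth_rewrite 1 [hY4]
    simp only [Ring.lie_def] at h1 h2 ⊢
    have : (Ph X + Pk X + Pp X) * (Ph Y + Pk Y + Pp Y)
        - (Ph Y + Pk Y + Pp Y) * (Ph X + Pk X + Pp X)
        = (Ph X * Ph Y - Ph Y * Ph X) + (Pk X * Pk Y - Pk Y * Pk X)
        + (Ph X * Pp Y - Pp Y * Ph X + (Pk X * Pp Y - Pp Y * Pk X)
        + ((Pp X * Ph Y - Ph Y * Pp X) + (Pp X * Pk Y - Pk Y * Pp X)))
        + (Pp X * Pp Y - Pp Y * Pp X) + (Ph X * Pk Y - Pk Y * Ph X)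
        + (Pk X * Ph Y - Ph Y * Pk X) := by noncomm_ring
    rw [this, h1, h2, add_zero, add_zero]
  have m1 := hS.hh _ hX1 _ hY1
  have m2 := hS.kk _ hX2 _ hY2
  have m3 := hS.hp _ hX1 _ hY3
  have m4 := hS.kp _ hX2 _ hY3
  have m5 := ph _ hX3 _ hY1
  have m6 := pk _ hX3 _ hY2
  have m7 : Pp ⁅Pp X, Pp Y⁆ = 0 := by
    obtain ⟨α, hα, β, hβ, hαβ⟩ := Submodule.mem_sup.1 (hS.pp _ hX3 _ hY3)
    rw [← hαβ, map_add, hS.Pp_h α hα, hS.Pp_k β hβ, add_zero]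
  refine ⟨?_, ?_, ?_⟩
  · rw [e]
    simp only [map_add, hS.Ph_h _ m1, hS.Ph_k _ m2, hS.Ph_p _ m3, hS.Ph_p _ m4, hS.Ph_p _ m5,
      hS.Ph_p _ m6, add_zero]
  · rw [e]
    simp only [map_add, hS.Pk_h _ m1, hS.Pk_k _ m2, hS.Pk_p _ m3, hS.Pk_p _ m4, hS.Pk_p _ m5,
      hS.Pk_p _ m6, add_zero, zero_add]
  · rw [e]
    simp only [map_add, hS.Pp_h _ m1, hS.Pp_k _ m2, hS.Pp_p _ m3, hS.Pp_p _ m4, hS.Pp_p _ m5,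
      hS.Pp_p _ m6, add_zero, zero_add, m7]

theorem mem_g (hm : m = k ⊔ p) (u : m) : (u : 𝔸) ∈ h ⊔ k ⊔ p := by
  have hu : (u : 𝔸) ∈ k ⊔ p := hm ▸ u.2
  exact (sup_le (fun X hX => mem_sup_k hX) (fun X hX => mem_sup_p hX) :
    k ⊔ p ≤ h ⊔ k ⊔ p) hu

theorem Ph_m (hS : SymData h k p Q Ph Pk Pp) (hm : m = k ⊔ p) (u : m) : Ph (u : 𝔸) = 0 := by
  obtain ⟨h1, h2, h3⟩ := sym_decomp_m hS hm u
  rw [h3, map_add, hS.Ph_k _ h1, hS.Ph_p _ h2, add_zero]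

theorem Pk_P (hS : SymData h k p Q Ph Pk Pp) (hP : ∀ X, (P X : 𝔸) = Pk X + Pp X) {X : 𝔸}
    (hX : X ∈ h ⊔ k ⊔ p) : Pk (P X : 𝔸) = Pk X := by
  obtain ⟨hX1, hX2, hX3, hX4⟩ := sym_decomp hS hX
  rw [hP, map_add, hS.Pk_k _ hX2, hS.Pk_p _ hX3, add_zero]

theorem Pp_P (hS : SymData h k p Q Ph Pk Pp) (hP : ∀ X, (P X : 𝔸) = Pk X + Pp X) {X : 𝔸}
    (hX : X ∈ h ⊔ k ⊔ p) : Pp (P X : 𝔸) = Pp X := by
  obtain ⟨hX1, hX2, hX3, hX4⟩ := sym_decomp hS hX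
  rw [hP, map_add, hS.Pp_k _ hX2, hS.Pp_p _ hX3, zero_add]

theorem Q_k_Pk (hS : SymData h k p Q Ph Pk Pp) {a X : 𝔸} (ha : a ∈ k) (hX : X ∈ h ⊔ k ⊔ p) :
    Q a (Pk X) = Q a X := by
  obtain ⟨hX1, hX2, hX3, hX4⟩ := sym_decomp hS hX
  nth_rewrite 2 [hX4]
  rw [map_add, map_add, hS.Qsymm a (Ph X), hS.Qhk _ hX1 _ ha, hS.Qkp _ ha _ hX3]
  ring

/-- `BL(u, P[b, X])` for `X` in the Lie algebra -/
theorem BL_lie (hS : SymData h k p Q Ph Pk Pp) (hm : m = k ⊔ p)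
    (hP : ∀ X, (P X : 𝔸) = Pk X + Pp X) (r : ℝ) (u b : m) {X : 𝔸} (hX : X ∈ h ⊔ k ⊔ p) :
    BL m Q Pk Pp r u (P ⁅(b : 𝔸), X⁆) =
      Q ⁅Pp (u : 𝔸), Pk (b : 𝔸)⁆ (Pp X) + Q ⁅Pp (u : 𝔸), Pp (b : 𝔸)⁆ (Ph X)
      + Q ⁅Pp (u : 𝔸), Pp (b : 𝔸)⁆ (Pk X)
      + r * (Q ⁅Pk (u : 𝔸), Pk (b : 𝔸)⁆ (Pk X) + Q ⁅Pk (u : 𝔸), Pp (b : 𝔸)⁆ (Pp X)) := by
  have hb := mem_g (h := h) hm b
  have hR := redData_of_sym hS hm hP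
  have hbX := hR.lie _ hb _ hX
  obtain ⟨e1, e2, e3⟩ := lie_parts hS hb hX
  obtain ⟨hX1, hX2, hX3, hX4⟩ := sym_decomp hS hX
  obtain ⟨u1, u2, u3⟩ := sym_decomp_m hS hm u
  obtain ⟨b1, b2, b3⟩ := sym_decomp_m hS hm b
  rw [BL_apply, Pk_P hS hP hbX, Pp_P hS hP hbX, e2, e3, Ph_m hS hm b]
  have h0 : ⁅(0 : 𝔸), Pp X⁆ = 0 := by simp [Ring.lie_def]
  rw [h0, zero_add, map_add, map_add, map_add,
    Q_k_Pk hS u1 (Submodule.mem_sup_left (hS.pp _ b2 _ hX3))]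
  rw [hS.Qinv (Pp (u : 𝔸)) (Pk (b : 𝔸)) (Pp X), hS.Qinv (Pp (u : 𝔸)) (Pp (b : 𝔸)) (Ph X),
    hS.Qinv (Pp (u : 𝔸)) (Pp (b : 𝔸)) (Pk X), hS.Qinv (Pk (u : 𝔸)) (Pk (b : 𝔸)) (Pk X),
    hS.Qinv (Pk (u : 𝔸)) (Pp (b : 𝔸)) (Pp X)]
  ring

/-- derivative of the limit of the spray field -/
def deta0 (P : 𝔸 →L[ℝ] m) (Pk Pp : 𝔸 →L[ℝ] 𝔸) (r : ℝ) (u b : m) : m :=
  P ((1 - r) • (⁅Pk (u : 𝔸), Pp (b : 𝔸)⁆ + ⁅Pk (b : 𝔸), Pp (u : 𝔸)⁆))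

/-- the limit of the spray field -/
def eta0 (P : 𝔸 →L[ℝ] m) (Pk Pp : 𝔸 →L[ℝ] 𝔸) (r : ℝ) (u : m) : m :=
  P ((1 - r) • ⁅Pk (u : 𝔸), Pp (u : 𝔸)⁆)

theorem deta0_parts (hS : SymData h k p Q Ph Pk Pp) (hm : m = k ⊔ p)
    (hP : ∀ X, (P X : 𝔸) = Pk X + Pp X) (r : ℝ) (u b : m) :
    Pk (deta0 P Pk Pp r u b : 𝔸) = 0 ∧ Pp (deta0 P Pk Pp r u b : 𝔸)
      = (1 - r) • (⁅Pk (u : 𝔸), Pp (b : 𝔸)⁆ + ⁅Pk (b : 𝔸), Pp (u : 𝔸)⁆) := by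
  obtain ⟨u1, u2, u3⟩ := sym_decomp_m hS hm u
  obtain ⟨b1, b2, b3⟩ := sym_decomp_m hS hm b
  have h1 : (1 - r) • (⁅Pk (u : 𝔸), Pp (b : 𝔸)⁆ + ⁅Pk (b : 𝔸), Pp (u : 𝔸)⁆) ∈ p :=
    Submodule.smul_mem _ _ (Submodule.add_mem _ (hS.kp _ u1 _ b2) (hS.kp _ b1 _ u2))
  rw [deta0, Pk_P hS hP (mem_sup_p h1), Pp_P hS hP (mem_sup_p h1), hS.Pk_p _ h1, hS.Pp_p _ h1]
  exact ⟨rfl, rfl⟩

theorem eta0_parts (hS : SymData h k p Q Ph Pk Pp) (hm : m = k ⊔ p)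
    (hP : ∀ X, (P X : 𝔸) = Pk X + Pp X) (r : ℝ) (u : m) :
    Pk (eta0 P Pk Pp r u : 𝔸) = 0 ∧ Pp (eta0 P Pk Pp r u : 𝔸)
      = (1 - r) • ⁅Pk (u : 𝔸), Pp (u : 𝔸)⁆ := by
  obtain ⟨u1, u2, u3⟩ := sym_decomp_m hS hm u
  have h1 : (1 - r) • ⁅Pk (u : 𝔸), Pp (u : 𝔸)⁆ ∈ p :=
    Submodule.smul_mem _ _ (hS.kp _ u1 _ u2)
  rw [eta0, Pk_P hS hP (mem_sup_p h1), Pp_P hS hP (mem_sup_p h1), hS.Pk_p _ h1, hS.Pp_p _ h1]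
  exact ⟨rfl, rfl⟩

theorem deta0_spec (hS : SymData h k p Q Ph Pk Pp) (hm : m = k ⊔ p)
    (hP : ∀ X, (P X : 𝔸) = Pk X + Pp X) (r : ℝ) (u b z : m) :
    BL m Q Pk Pp r (deta0 P Pk Pp r u b) z =
      - BL m Q Pk Pp r b (P ⁅(u : 𝔸), (z : 𝔸)⁆) - BL m Q Pk Pp r u (P ⁅(b : 𝔸), (z : 𝔸)⁆) := by
  obtain ⟨e1, e2⟩ := deta0_parts hS hm hP r u b
  rw [BL_lie hS hm hP r b u (mem_g hm z), BL_lie hS hm hP r u b (mem_g hm z), BL_apply, e1, e2,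
    Ph_m hS hm z, lie_neg_swap (Pp (b : 𝔸)) (Pk (u : 𝔸)), lie_neg_swap (Pp (u : 𝔸)) (Pk (b : 𝔸)),
    lie_neg_swap (Pp (u : 𝔸)) (Pp (b : 𝔸)), lie_neg_swap (Pk (u : 𝔸)) (Pk (b : 𝔸))]
  simp only [map_neg, map_add, map_smul, map_zero, LinearMap.neg_apply, LinearMap.add_apply,
    LinearMap.smul_apply, LinearMap.zero_apply, smul_eq_mul]
  ring

theorem eta0_spec (hS : SymData h k p Q Ph Pk Pp) (hm : m = k ⊔ p)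
    (hP : ∀ X, (P X : 𝔸) = Pk X + Pp X) (r : ℝ) (u z : m) :
    BL m Q Pk Pp r (eta0 P Pk Pp r u) z =
      - BL m Q Pk Pp r u (P ⁅(u : 𝔸), (z : 𝔸)⁆) := by
  have h1 := deta0_spec hS hm hP r u u z
  have h2 : deta0 P Pk Pp r u u = (2 : ℝ) • eta0 P Pk Pp r u := by
    rw [deta0, eta0, ← map_smul, ← two_smul ℝ ⁅Pk (u : 𝔸), Pp (u : 𝔸)⁆, smul_comm]
  rw [h2, map_smul, smul_apply, smul_eq_mul] at h1
  linarith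

/-- consequence of the Jacobi identity -/
theorem Q_jacobi (hS : SymData h k p Q Ph Pk Pp) {a c x y : 𝔸} (ha : a ∈ k) (hc : c ∈ k)
    (hx : x ∈ p) (hy : y ∈ p) :
    Q ⁅y, c⁆ ⁅a, x⁆ = Q ⁅a, y⁆ ⁅x, c⁆ - Q (Pk ⁅x, y⁆) ⁅a, c⁆ := by
  have h1 : Q ⁅y, c⁆ ⁅a, x⁆ = Q ⁅⁅y, c⁆, a⁆ x := (hS.Qinv _ _ _).symm
  have h2 : ⁅⁅y, c⁆, a⁆ = ⁅⁅y, a⁆, c⁆ + ⁅y, ⁅c, a⁆⁆ := by
    simp only [Ring.lie_def]
    noncomm_ring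
  have h3 : Q ⁅⁅y, a⁆, c⁆ x = Q ⁅a, y⁆ ⁅x, c⁆ := by
    rw [hS.Qinv, lie_neg_swap y a, lie_neg_swap c x]
    simp
  have h4 : Q ⁅y, ⁅c, a⁆⁆ x = - Q (Pk ⁅x, y⁆) ⁅a, c⁆ := by
    rw [lie_neg_swap y, map_neg, LinearMap.neg_apply, hS.Qinv, lie_neg_swap c a,
      lie_neg_swap y x, hS.Qsymm (Pk ⁅x, y⁆),
      Q_k_Pk hS (hS.kk _ ha _ hc) (Submodule.mem_sup_left (hS.pp _ hx _ hy))]
    simp
  rw [h1, h2, map_add, LinearMap.add_apply, h3, h4]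
  ring

/-- the limit form -/
theorem R0_eq (hS : SymData h k p Q Ph Pk Pp) (hm : m = k ⊔ p)
    (hP : ∀ X, (P X : 𝔸) = Pk X + Pp X) (r : ℝ) (u b : m) :
    (1 / 4) * BL m Q Pk Pp r (deta0 P Pk Pp r u b + P ⁅(u : 𝔸), (b : 𝔸)⁆)
      (deta0 P Pk Pp r u b + P ⁅(u : 𝔸), (b : 𝔸)⁆)
    - BL m Q Pk Pp r (P ⁅(u : 𝔸), (b : 𝔸)⁆) (P ⁅(u : 𝔸), (b : 𝔸)⁆)
    + BL m Q Pk Pp r u (P ⁅(b : 𝔸), ⁅(u : 𝔸), (b : 𝔸)⁆⁆)
    + BL m Q Pk Pp r (P ⁅(b : 𝔸), (eta0 P Pk Pp r u : 𝔸)⁆) b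
    = R0 Q Ph Pk Pp r u b := by
  have hR := redData_of_sym hS hm hP
  have hu := mem_g (h := h) hm u
  have hb := mem_g (h := h) hm b
  have hub := hR.lie _ hu _ hb
  obtain ⟨u1, u2, u3⟩ := sym_decomp_m hS hm u
  obtain ⟨b1, b2, b3⟩ := sym_decomp_m hS hm b
  obtain ⟨d1, d2⟩ := deta0_parts hS hm hP r u b
  obtain ⟨f1, f2⟩ := eta0_parts hS hm hP r u
  obtain ⟨e1, e2, e3⟩ := lie_parts hS hu hb
  rw [BL_symm hS r (P ⁅(b : 𝔸), (eta0 P Pk Pp r u : 𝔸)⁆) b, BL_lie hS hm hP r u b hub,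
    BL_lie hS hm hP r b b (mem_g hm _), f1, f2, Ph_m hS hm (eta0 P Pk Pp r u), e1, e2, e3,
    Ph_m hS hm u, Ph_m hS hm b]
  simp only [BL_apply, Submodule.coe_add]
  simp only [map_add, d1, d2, Pk_P hS hP hub, Pp_P hS hP hub, e2, e3, Ph_m hS hm u, Ph_m hS hm b]
  rw [R0]
  have j := Q_jacobi hS u1 b1 u2 b2
  have hxy := hS.pp _ u2 _ b2
  have l0 : ∀ Y : 𝔸, ⁅(0 : 𝔸), Y⁆ = 0 := fun Y => by simp [Ring.lie_def]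
  have l1 : ∀ Y : 𝔸, ⁅Y, (0 : 𝔸)⁆ = 0 := fun Y => by simp [Ring.lie_def]
  have hxy2 : ⁅Pp (u : 𝔸), Pp (b : 𝔸)⁆ = Ph ⁅Pp (u : 𝔸), Pp (b : 𝔸)⁆
      + Pk ⁅Pp (u : 𝔸), Pp (b : 𝔸)⁆ := by
    obtain ⟨α, hα, β, hβ, hαβ⟩ := Submodule.mem_sup.1 hxy
    rw [← hαβ]
    simp only [map_add, hS.Ph_h _ hα, hS.Ph_k _ hβ, hS.Pk_h _ hα, hS.Pk_k _ hβ, add_zero,
      zero_add]
  have hxy3 := (sym_decomp hS (Submodule.mem_sup_left (T := p) hxy)).1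
  have hxy4 := (sym_decomp hS (Submodule.mem_sup_left (T := p) hxy)).2.1
  generalize Ph ⁅Pp (u : 𝔸), Pp (b : 𝔸)⁆ = Zh at *
  generalize Pk ⁅Pp (u : 𝔸), Pp (b : 𝔸)⁆ = Z at *
  have q1 := hS.Qhk _ hxy3 _ hxy4
  have q2 := hS.Qhk _ hxy3 _ (hS.kk _ u1 _ b1)
  rw [hxy2, lie_neg_swap (Pk (b : 𝔸)) (Pp (u : 𝔸)), lie_neg_swap (Pk (b : 𝔸)) (Pp (b : 𝔸)),
    lie_neg_swap (Pk (b : 𝔸)) (Pk (b : 𝔸))]
  simp only [map_neg, map_add, map_smul, map_zero, LinearMap.neg_apply, LinearMap.add_apply,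
    LinearMap.smul_apply, LinearMap.zero_apply, smul_eq_mul, l0, l1]
  rw [hS.Qsymm ⁅Pp (u : 𝔸), Pk (b : 𝔸)⁆ ⁅Pk (u : 𝔸), Pp (b : 𝔸)⁆, hS.Qsymm Z Zh, q1, q2,
    hS.Qsymm ⁅Pk (u : 𝔸), Pk (b : 𝔸)⁆ Z, j]
  ring

/-! ### the limits -/

section limits2

variable {t : ℕ → ℝ} {u b : ℕ → m} {u₀ b₀ : m}

theorem eventually_mink (hS : SymData h k p Q Ph Pk Pp) (hm : m = k ⊔ p)
    (hP : ∀ X, (P X : 𝔸) = Pk X + Pp X) (hφ : PhiData h m P Pk Pp φ) {r : ℝ} (hr : 0 < r)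
    (ht : Tendsto t atTop (𝓝 0)) : ∀ᶠ n in atTop, MinkData h m P (LL Q Pk Pp r (t n) φ) := by
  obtain ⟨t₀, ht₀, H⟩ := LL_mink hS hm hP hφ hr
  have htt : ∀ᶠ n in atTop, |t n| < t₀ := by
    have := ht.abs
    rw [abs_zero] at this
    exact this.eventually (gt_mem_nhds ht₀)
  filter_upwards [htt] with n hn
  exact (H (t n) hn).1

/-- limit of the spray field -/
theorem eta_tendsto (hS : SymData h k p Q Ph Pk Pp) (hm : m = k ⊔ p)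
    (hP : ∀ X, (P X : 𝔸) = Pk X + Pp X) (hφ : PhiData h m P Pk Pp φ) {r : ℝ} (hr : 0 < r)
    (ht : Tendsto t atTop (𝓝 0)) (hu₀ : u₀ ≠ 0) (hu : Tendsto u atTop (𝓝 u₀)) :
    Tendsto (fun n => eta P (LL Q Pk Pp r (t n) φ) (u n)) atTop (𝓝 (eta0 P Pk Pp r u₀)) := by
  refine LL_solve hS hm hφ hr ht hu₀ hu
    (f := fun n z => - D1 (LL Q Pk Pp r (t n) φ) (u n) (P ⁅(u n : 𝔸), (z : 𝔸)⁆))
    (f₀ := fun z => - BL m Q Pk Pp r u₀ (P ⁅(u₀ : 𝔸), (z : 𝔸)⁆)) ?_ ?_ ?_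
  · filter_upwards [hu.eventually (eventually_ne' hu₀), eventually_mink hS hm hP hφ hr ht]
      with n hn hL z
    exact eta_spec (redData_of_sym hS hm hP) hL hn z
  · intro z
    exact (LD1_tendsto hS hφ.smooth r ht hu₀ hu
      (P_tendsto (lie_tendsto (coe_tendsto hu) tendsto_const_nhds))).neg
  · intro z
    exact eta0_spec hS hm hP r u₀ z

/-- limit of the derivative of the spray field -/
theorem deta_tendsto (hS : SymData h k p Q Ph Pk Pp) (hm : m = k ⊔ p)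
    (hP : ∀ X, (P X : 𝔸) = Pk X + Pp X) (hφ : PhiData h m P Pk Pp φ) {r : ℝ} (hr : 0 < r)
    (ht : Tendsto t atTop (𝓝 0)) (hu₀ : u₀ ≠ 0) (hu : Tendsto u atTop (𝓝 u₀))
    (hb : Tendsto b atTop (𝓝 b₀)) :
    Tendsto (fun n => fderiv ℝ (eta P (LL Q Pk Pp r (t n) φ)) (u n) (b n)) atTop
      (𝓝 (deta0 P Pk Pp r u₀ b₀)) := by
  refine LL_solve hS hm hφ hr ht hu₀ hu
    (f := fun n z => - D2 (LL Q Pk Pp r (t n) φ) (u n) (b n) (P ⁅(u n : 𝔸), (z : 𝔸)⁆)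
      - D1 (LL Q Pk Pp r (t n) φ) (u n) (P ⁅(b n : 𝔸), (z : 𝔸)⁆)
      - D3 (LL Q Pk Pp r (t n) φ) (u n) (b n) (eta P (LL Q Pk Pp r (t n) φ) (u n)) z)
    (f₀ := fun z => - BL m Q Pk Pp r b₀ (P ⁅(u₀ : 𝔸), (z : 𝔸)⁆)
      - BL m Q Pk Pp r u₀ (P ⁅(b₀ : 𝔸), (z : 𝔸)⁆)) ?_ ?_ ?_
  · filter_upwards [hu.eventually (eventually_ne' hu₀), eventually_mink hS hm hP hφ hr ht]
      with n hn hL z
    exact deta_spec (redData_of_sym hS hm hP) hL hn (b n) z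
  · intro z
    have h1 := (LD2_tendsto hS hφ.smooth r ht hu₀ hu hb
      (P_tendsto (P := P) (lie_tendsto (coe_tendsto hu)
        (tendsto_const_nhds (x := (z : 𝔸)))))).neg
    have h2 := (LD1_tendsto hS hφ.smooth r ht hu₀ hu
      (P_tendsto (P := P) (lie_tendsto (coe_tendsto hb) (tendsto_const_nhds (x := (z : 𝔸))))))
    have h3 := LD3_tendsto hS hφ.smooth r ht hu₀ hu hb (eta_tendsto hS hm hP hφ hr ht hu₀ hu)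
      (tendsto_const_nhds (x := z))
    have h4 := (h1.sub h2).sub h3
    rw [sub_zero] at h4
    exact h4
  · intro z
    exact deta0_spec hS hm hP r u₀ b₀ z

theorem Rform_limit0 (hS : SymData h k p Q Ph Pk Pp) (hm : m = k ⊔ p)
    (hP : ∀ X, (P X : 𝔸) = Pk X + Pp X) (hφ : PhiData h m P Pk Pp φ) {r : ℝ} (hr : 0 < r)
    {t : ℕ → ℝ} {u b : ℕ → m} {u₀ b₀ : m} (ht : Tendsto t atTop (𝓝 0)) (hu₀ : u₀ ≠ 0)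
    (hu : Tendsto u atTop (𝓝 u₀)) (hb : Tendsto b atTop (𝓝 b₀)) :
    Tendsto (fun n => Rform P (LL Q Pk Pp r (t n) φ) (u n) (b n)) atTop
      (𝓝 (R0 Q Ph Pk Pp r u₀ b₀)) := by
  have he := eta_tendsto hS hm hP hφ hr ht hu₀ hu
  have hd := deta_tendsto hS hm hP hφ hr ht hu₀ hu hb
  have hk := deta_tendsto hS hm hP hφ hr ht hu₀ hu he
  have hub := lie_tendsto (coe_tendsto hu) (coe_tendsto hb)
  have hw := P_tendsto (P := P) hub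
  have hdw := hd.add hw
  have hs := hφ.smooth
  have T1 := (LD2_tendsto hS hs r ht hu₀ hu hdw hdw).const_mul (1 / 4)
  have T2 := LD2_tendsto hS hs r ht hu₀ hu hw hw
  have T3 := LD1_tendsto hS hs r ht hu₀ hu (P_tendsto (P := P) (lie_tendsto (coe_tendsto hb) hub))
  have T4 := LD2_tendsto hS hs r ht hu₀ hu
    (P_tendsto (P := P) (lie_tendsto (coe_tendsto hb) (coe_tendsto he))) hb
  have T5 := LD3_tendsto hS hs r ht hu₀ hu he hb hw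
  have T6 := LD4_tendsto hS hs r ht hu₀ hu he he hb hb
  have T7 := LD3_tendsto hS hs r ht hu₀ hu hk hb hb
  have T := ((((T1.sub T2).add T3).add T4).sub T5).sub ((T6.add T7).const_mul (1 / 2))
  rw [← R0_eq hS hm hP r u₀ b₀]
  simp only [add_zero, mul_zero, sub_zero] at T
  exact T

end limits2

end Pool.Agent.Helper93.Fin
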